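import Mathlib
import Pool.Agent.Q137.WangShi.Geom

set_option autoImplicit false

/-!
# At most `d + 1` concurrent lines in the interior of a Wang–Shi split

For every triangle `T` and every `d ≥ 1`, at most `d + 1` lines of the Wang–Shi split `WS_d` pass
through one interior point of `T`, that is, `μ_d ≤ d + 1`.
-/

namespace Pool.Agent.Results.MP_e74ad6_co.Concurrency

open Set

/-- The marked point at distance `i / d` along the side of `T` from vertex `s` to vertex `s + 1`
(indices of vertices modulo 3). -/
noncomputable def divPoint (T : Affine.Triangle ℝ (EuclideanSpace ℝ (Fin 2))) (d : ℕ) (s : Fin 3)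
    (i : ℕ) : EuclideanSpace ℝ (Fin 2) :=
  AffineMap.lineMap (T.points s) (T.points (s + 1)) ((i : ℝ) / (d : ℝ))

/-- `p` is one of the points that divide the sides of `T` into `d` equal segments (the vertices
included). -/
def Marked (T : Affine.Triangle ℝ (EuclideanSpace ℝ (Fin 2))) (d : ℕ)
    (p : EuclideanSpace ℝ (Fin 2)) : Prop :=
  ∃ (s : Fin 3) (i : ℕ), i ≤ d ∧ p = divPoint T d s i

/-- The lines of the Wang–Shi split: the lines through two marked points that do not lie on a
common side of `T`. -/
def wsLines (T : Affine.Triangle ℝ (EuclideanSpace ℝ (Fin 2))) (d : ℕ) :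
    Set (AffineSubspace ℝ (EuclideanSpace ℝ (Fin 2))) :=
  {L | ∃ p q, Marked T d p ∧ Marked T d q ∧
    (∀ s : Fin 3, ¬ (p ∈ segment ℝ (T.points s) (T.points (s + 1)) ∧
      q ∈ segment ℝ (T.points s) (T.points (s + 1)))) ∧ L = line[ℝ, p, q]}

/-- The number of lines of the split through `P`. -/
noncomputable def degree (T : Affine.Triangle ℝ (EuclideanSpace ℝ (Fin 2))) (d : ℕ)
    (P : EuclideanSpace ℝ (Fin 2)) : ℕ :=
  {L ∈ wsLines T d | P ∈ L}.ncard

/-- `μ_d`, the largest number of lines of the split through one point of the interior of `T`. -/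
noncomputable def mu (T : Affine.Triangle ℝ (EuclideanSpace ℝ (Fin 2))) (d : ℕ) : ℕ :=
  sSup {m | ∃ P ∈ interior (convexHull ℝ (range T.points)), m = degree T d P}

/-- **Theorem.** Let `T` be a triangle in the plane and let `d ≥ 1`.  The split has finitely many
lines, at most `d + 1` of them pass through any given point of the interior of `T`, and
`μ_d ≤ d + 1`. -/
theorem result (T : Affine.Triangle ℝ (EuclideanSpace ℝ (Fin 2))) (d : ℕ) (hd : 1 ≤ d) :
    (wsLines T d).Finite ∧
    (∀ P ∈ interior (convexHull ℝ (range T.points)), degree T d P ≤ d + 1) ∧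
    mu T d ≤ d + 1 := by
  have h : ∀ P ∈ interior (convexHull ℝ (range T.points)), degree T d P ≤ d + 1 :=
    fun P hP => Q137.WangShi.degree_le hd hP
  refine ⟨Q137.WangShi.wsLines_finite T d, h, csSup_le' ?_⟩
  rintro m ⟨P, hP, rfl⟩
  exact h P hP

end Pool.Agent.Results.MP_e74ad6_co.Concurrency
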